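import Pool.Agent.W2helper57.TUH.Final
import Pool.Agent.W2helper57.TUU.Np

set_option autoImplicit false

/-!
# Approximating separable indefinite quadratic integer programs with TU constraints

(A) For at most one concave variable and every `ε > 0` there is a polynomial-time algorithm which
does everything that the question asks for: it reports infeasibility and unboundedness and returns
an `ε`-approximate solution otherwise.

(B) For `p ≥ 2` concave variables such an algorithm exists if and only if `P = NP`.

(C) For every number `p` of concave variables and every `ε > 0`, there is a polynomial-time algorithm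
which reports infeasibility and otherwise returns a feasible point; if the instance has an optimal
solution, the returned point is an `ε`-approximate solution. So the only obstruction in (B) is the
recognition of unbounded instances.

(D) It is `NP`-hard to recognize the instances that are unbounded below among the instances with a
totally unimodular matrix and at most two concave variables.

Idea of (C): every concave variable is restricted to a geometric grid, at a small cost by a conformal
decomposition; after fixing these variables the convex problem is solved by scaling and proximity.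

Idea of (A): if the objective function has a very small value, then it tends to `-∞` along a ray with
a small starting point and a small integral direction (conformal decomposition, and a bound for the
entries of the inverse of a minimal matrix that is not copositive). If the direction is not constant in
the concave variable, then the objective function is already very small at a feasible point
where the concave variable has a prescribed huge value, and the convex solver finds such a point;
otherwise a linear program detects the direction. The rays also show that unboundedness is in `NP`.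

Idea of (B), (D): the energy of a system of springs on a line with order constraints and two springs
of negative stiffness. One of these fixes the scale, the length of the other one is folded repeatedly
by two chains of intervals, and the offsets of the chains are perturbed by the numbers of an instance
of the partition problem.
-/

namespace Pool.Agent.Results.MP_ed7369_lc.Classification

open Pool.Agent.NPC Pool.Agent.NPC.W2h57TU Pool.Agent.W2helper57.TU Pool.Agent.W2helper57.TUH
  Pool.Agent.NPC.W2h57TUH Pool.Agent.NPC.W2h57TUU

/-- The algorithm `A` does what the question asks for, for `p` concave variables and `ε`, except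
for reporting unboundedness: for every instance with a totally unimodular matrix and at most `p`
concave variables it returns `none` if the instance is infeasible and a feasible point otherwise, and
the feasible point is an `ε`-approximate solution if the instance has an optimal solution. -/
def Approximates (A : Inst → Option (List ℤ)) (p : ℕ) (ε : ℝ) : Prop :=
  ∀ I : Inst, (mat I).IsTotallyUnimodular → concave I ≤ p →
    ((¬∃ x, Feas I x) → A I = none) ∧
    ((∃ x, Feas I x) → ∃ x, A I = some (List.ofFn x) ∧ Feas I x ∧
      ((∃ y, Opt I y) → Approx I ε x))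

/-- The algorithm `A` does what the question asks for, for `p` concave variables and `ε`: for every
instance with a totally unimodular matrix and at most `p` concave variables it returns `none` if the
instance is infeasible, `some none` if it is unbounded below, and an `ε`-approximate solution if it
has an optimal solution. -/
def Solves (A : Inst → Option (Option (List ℤ))) (p : ℕ) (ε : ℝ) : Prop :=
  ∀ I : Inst, (mat I).IsTotallyUnimodular → concave I ≤ p →
    ((¬∃ x, Feas I x) → A I = none) ∧
    (Unb I → A I = some none) ∧
    ((∃ y, Opt I y) → ∃ x, A I = some (some (List.ofFn x)) ∧ Approx I ε x)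

theorem length_ngs (I : Inst) : (ngs I.1).length = concave I := by
  unfold concave
  have h : (ngs I.1).Nodup := (List.nodup_range).filter _
  rw [← List.toFinset_card_of_nodup h]
  symm
  apply Finset.card_bij (fun j _ => j.1)
  · intro j hj
    rw [Finset.mem_filter] at hj
    exact List.mem_toFinset.2 (mem_ngs.2 hj.2)
  · intro i _ j _ hij
    exact Fin.ext hij
  · intro b hb
    have hb' := List.mem_toFinset.1 hb
    have hlt : b < I.1.length := by
      unfold ngs at hb'
      rw [List.mem_filter, List.mem_range] at hb'
      exact hb'.1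
    exact ⟨⟨b, hlt⟩, Finset.mem_filter.2 ⟨Finset.mem_univ _,
      (mem_ngs (j := ⟨b, hlt⟩)).1 hb'⟩, rfl⟩

/-- (C) -/
theorem positive (p : ℕ) (ε : ℝ) (hε : 0 < ε) :
    ∃ A : Inst → Option (List ℤ), Poly A ∧ Approximates A p ε := by
  obtain ⟨N, hN⟩ := exists_nat_gt (1 / ε)
  have hN0 : (0 : ℝ) < N := lt_trans (by positivity) hN
  have hN1 : 1 ≤ N := by exact_mod_cast hN0
  refine ⟨fun I => alg p ((p + 1) * N) I.1 I.2, poly_alg p _, fun I hTU hp => ?_⟩
  have hR : Um (RW (mat I)) := um_RW hTU
  have hS : ∀ q ∈ I.2, vz I.1.length q.1 ∈ RW (mat I) := by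
    intro q hq
    obtain ⟨r, rfl⟩ := List.get_of_mem hq
    exact RW_row (mat I) r
  constructor
  · intro h
    apply alg_none
    rw [Set.eq_empty_iff_forall_notMem]
    intro x hx
    exact h ⟨x, (feas_iff I x).2 hx⟩
  · rintro ⟨x0, hx0⟩
    obtain ⟨l, h1, h2, h3, h4⟩ := alg_some hR hS (p := p) (by rw [length_ngs]; exact hp) hN1
      ⟨x0, (feas_iff I x0).1 hx0⟩
    refine ⟨vz I.1.length l, ?_, (feas_iff I _).2 h3, fun _ => ⟨(feas_iff I _).2 h3, ?_⟩⟩
    · change alg p ((p + 1) * N) I.1 I.2 = _
      rw [h1]
      congr 1
      apply List.ext_getElem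
      · rw [List.length_ofFn, h2]
      · intro i hi hi'
        rw [List.getElem_ofFn]
        unfold vz
        rw [List.getD_eq_getElem _ _ hi]
    · rintro xs ⟨hxs, hopt⟩ M hM
      have hub : ∀ y, Feas I y → obj I y ≤ ⌊M⌋ := by
        intro y hy
        rw [Int.le_floor]
        exact hM.1 ⟨y, hy, rfl⟩
      have h5 := h4 (obj I xs) ⌊M⌋ (fun z hz =>
        ⟨hopt z ((feas_iff I z).2 hz), hub z ((feas_iff I z).2 hz)⟩)
        ⟨xs, (feas_iff I xs).1 hxs, rfl⟩
      have h6 : (N : ℤ) * (obj I (vz I.1.length l) - obj I xs) ≤ ⌊M⌋ - obj I xs := h5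
      have h7 : (N : ℝ) * ((obj I (vz I.1.length l) : ℝ) - obj I xs) ≤ (⌊M⌋ : ℝ) - obj I xs := by
        exact_mod_cast h6
      have h8 : (⌊M⌋ : ℝ) ≤ M := Int.floor_le M
      have h9 : (obj I (vz I.1.length l) : ℝ) - obj I xs ≤ (M - obj I xs) / N := by
        rw [le_div_iff₀ hN0]
        linarith
      have h10 : 0 ≤ M - obj I xs := by
        have : (obj I xs : ℝ) ≤ ⌊M⌋ := by exact_mod_cast hub xs hxs
        linarith
      have h11 : 1 / (N : ℝ) ≤ ε := by
        rw [div_le_iff₀ hN0]
        rw [div_lt_iff₀ hε] at hN
        linarith
      calc (obj I (vz I.1.length l) : ℝ) - obj I xs ≤ (M - obj I xs) / N := h9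
        _ = 1 / N * (M - obj I xs) := by ring
        _ ≤ ε * (M - obj I xs) := mul_le_mul_of_nonneg_right h11 h10

/-- an approximation algorithm and a test of unboundedness give a complete algorithm -/
theorem combine {p : ℕ} {ε : ℝ} (hε : 0 < ε) {t : Inst → Bool} (ht : Poly t)
    (h : ∀ I : Inst, (mat I).IsTotallyUnimodular → concave I ≤ p → (∃ x, Feas I x) →
      (t I = true ↔ Unb I)) :
    ∃ A : Inst → Option (Option (List ℤ)), Poly A ∧ Solves A p ε := by
  obtain ⟨A, hA, hS⟩ := positive p ε hε
  refine ⟨fun I => (A I).map fun x => if t I then none else some x, ?_, ?_⟩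
  · refine Pool.Agent.NPC.Poly.optMap (f := fun I x => if t I then none else some x) hA ?_
    refine (Pool.Agent.NPC.Poly.cond (ht.comp (Pool.Agent.NPC.Poly.fst
      Pool.Agent.NPC.Poly.id)) (Pool.Agent.NPC.Poly.const none) (Pool.Agent.NPC.Poly.some
        (Pool.Agent.NPC.Poly.snd Pool.Agent.NPC.Poly.id))).congr fun z => ?_
    cases t z.1 <;> rfl
  · intro I hTU hp
    obtain ⟨h1, h2⟩ := hS I hTU hp
    refine ⟨fun hne => ?_, fun hU => ?_, fun hO => ?_⟩
    · simp only [h1 hne, Option.map_none]
    · obtain ⟨x, hx, _⟩ := hU 0
      obtain ⟨y, hy, _⟩ := h2 ⟨x, hx⟩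
      simp only [hy, Option.map_some, (h I hTU hp ⟨x, hx⟩).2 hU, if_true]
    · obtain ⟨xs, hxs⟩ := hO
      obtain ⟨y, hy, _, hy'⟩ := h2 ⟨xs, hxs.1⟩
      have hf : t I = false := by
        by_contra hcon
        rw [Bool.not_eq_false] at hcon
        obtain ⟨x, hx, hx'⟩ := (h I hTU hp ⟨xs, hxs.1⟩).1 hcon (obj I xs)
        have := hxs.2 x hx
        omega
      exact ⟨y, by simp [hy, hf], hy' ⟨xs, hxs⟩⟩

/-- (A) -/
theorem one {p : ℕ} (hp : p ≤ 1) {ε : ℝ} (hε : 0 < ε) :
    ∃ A : Inst → Option (Option (List ℤ)), Poly A ∧ Solves A p ε :=
  combine hε poly_unbT fun _ hTU hc hne =>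
    ⟨unbT_sound hTU hne, unbT_complete hTU (hc.trans hp)⟩

/-- (B), one direction -/
theorem of_eq (p : ℕ) {ε : ℝ} (hε : 0 < ε) (h : ∀ L : Set (List Bool), InNP L → InP L) :
    ∃ A : Inst → Option (Option (List ℤ)), Poly A ∧ Solves A p ε := by
  obtain ⟨t, ht, ht'⟩ := exists_test h
  exact combine hε ht fun I hTU _ _ => ht' I hTU

/-- (B), the other direction -/
theorem negative {p : ℕ} (hp : 2 ≤ p) {ε : ℝ}
    (h : ∃ A : Inst → Option (Option (List ℤ)), Poly A ∧ Solves A p ε) :
    ∀ L, InNP L → InP L := by
  obtain ⟨A, hA, hS⟩ := h
  refine hardPr_Part.collapse (d := fun al => decide (A (red al) = some none))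
    (Pool.Agent.NPC.Poly.decide_eq (hA.comp poly_red) (Pool.Agent.NPC.Poly.const _))
    (fun al hne => ?_)
  rw [decide_eq_true_eq, red_iff hne]
  obtain ⟨h1, h2, h3⟩ := hS (red al) (tu_red al) ((concave_red al).trans hp)
  constructor
  · exact h2
  · intro h
    by_contra hcon
    obtain ⟨x, hx, _⟩ := h3 ⟨_, opt_gi (gok_red al) hcon⟩
    rw [hx] at h
    exact absurd h (by simp)

/-- (D) -/
theorem hard : NPHardP fun I : Inst =>
    (mat I).IsTotallyUnimodular ∧ concave I ≤ 2 ∧ (∃ x, Feas I x) ∧ Unb I := by
  have h : HardI fun I : Inst =>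
      (mat I).IsTotallyUnimodular ∧ concave I ≤ 2 ∧ (∃ x, Feas I x) ∧ Unb I := by
    intro L hL
    obtain ⟨f, hf, hpr, hfL⟩ := hardPr_unb L hL
    refine ⟨f, hf, fun x => (hfL x).trans ⟨fun h => ⟨(hpr x).1, (hpr x).2, ?_, h⟩, fun h => h.2.2.2⟩⟩
    obtain ⟨y, hy, _⟩ := h 0
    exact ⟨y, hy⟩
  exact h.toNPHardP

/-- (A) for `p ≤ 1` and every `ε > 0` there is a polynomial-time algorithm as in the question;
(B) for `p ≥ 2` and every `ε > 0` there is one if and only if `P = NP`;
(C) for all `p` and `ε > 0` there is a polynomial-time algorithm which reports infeasibility and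
returns `ε`-approximate solutions for all instances with an optimal solution;
(D) recognizing unbounded instances is `NP`-hard for two concave variables. -/
theorem result :
    (∀ (p : ℕ) (ε : ℝ), p ≤ 1 → 0 < ε →
      ∃ A : Inst → Option (Option (List ℤ)), Poly A ∧ Solves A p ε) ∧
    (∀ (p : ℕ) (ε : ℝ), 2 ≤ p → 0 < ε →
      ((∃ A : Inst → Option (Option (List ℤ)), Poly A ∧ Solves A p ε) ↔
        ∀ L : Set (List Bool), InNP L → InP L)) ∧
    (∀ (p : ℕ) (ε : ℝ), 0 < ε → ∃ A : Inst → Option (List ℤ), Poly A ∧ Approximates A p ε) ∧
    NPHardP (fun I : Inst =>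
      (mat I).IsTotallyUnimodular ∧ concave I ≤ 2 ∧ (∃ x, Feas I x) ∧ Unb I) :=
  ⟨fun _ _ hp hε => one hp hε, fun p _ hp hε => ⟨negative hp, of_eq p hε⟩, positive, hard⟩

end Pool.Agent.Results.MP_ed7369_lc.Classification
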